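import Pool.Agent.X280.SRB.Main

/-!
# MP_cd9307_al, Q1: the extension of a finitely based semiring by an absorbing element

The definitions (semirings, terms, `Holds`, `FinitelyBased`, `WithInf`) are in
`Pool.Agent.X280.SRB.Defs`.
-/

set_option autoImplicit false

universe u

namespace Pool.Agent.Results.MP_cd9307_al.FiniteBasisInf

open Pool.Agent.X280.SRB

/-- **Q1 has a positive answer.**  For every semiring `S`, if `S` is finitely based, then
`S^∞ = S ∪ {∞}` is finitely based. -/
theorem result (S : Type u) [SR S] [Nonempty S] (h : FinitelyBased S) :
    FinitelyBased (WithInf S) :=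
  finitelyBased_withInf S h

end Pool.Agent.Results.MP_cd9307_al.FiniteBasisInf
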